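import Pool.Agent.Q77.LU.StmH
import Pool.Agent.H906R3.YM.Conc
import Pool.Agent.H906R3.YM.Adj

/-! Project LU (helper77): the adjoint matrices and flat configurations. -/

set_option autoImplicit false

namespace Pool.Agent.Q129.LU

open MeasureTheory Matrix Set Filter Topology
open scoped ContDiff Matrix.Norms.Frobenius
open Pool.Agent.Q77.LU Pool.Agent.H906R3

noncomputable section

variable {N n D l : ℕ} {G : Subgroup (UU N)}

/-- The same data in the form used by the library. -/
def fm (B : LieBasis G n) : YM.Frame G n where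
  X := B.X
  ex := B.ex
  ex_eq := B.ex_eq
  orth := B.orth
  full := B.full

/-- The abstract data. -/
def ld (B : LieBasis G n) : YM.LD G N n := (fm B).toLD

lemma mt_mul (g h : G) : mt (g * h) = mt g * mt h := rfl

lemma mt_one : mt (1 : G) = 1 := rfl

lemma mt_inv (g : G) : mt g⁻¹ = (mt g)ᴴ := rfl

lemma mt_unit (g : G) : mt g * (mt g)ᴴ = 1 := Matrix.mem_unitaryGroup_iff.1 (g : UU N).2

lemma mt_unit' (g : G) : (mt g)ᴴ * mt g = 1 := mul_eq_one_comm.1 (mt_unit g)

lemma mt_inj {g h : G} (e : mt g = mt h) : g = h := Subtype.ext (Subtype.ext e)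

lemma skewX (B : LieBasis G n) (a : Fin n) : (B.X a)ᴴ = -B.X a := (fm B).skewX a

/-- matrix of the adjoint action -/
def Am (B : LieBasis G n) (g : G) (b a : Fin n) : ℝ :=
  (trace ((B.X b)ᴴ * (mt g * B.X a * (mt g)ᴴ))).re

lemma Am_conj (B : LieBasis G n) (g : G) (a : Fin n) :
    mt g * B.X a * (mt g)ᴴ = ∑ b, Am B g b a • B.X b := YM.conj_eq (L := ld B) g a

lemma Am_inv (B : LieBasis G n) (g : G) (a b : Fin n) : Am B g⁻¹ a b = Am B g b a :=
  YM.adm_inv (L := ld B) g a b

lemma Am_orth (B : LieBasis G n) (g : G) (b b' : Fin n) :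
    ∑ a, Am B g b a * Am B g b' a = if b = b' then 1 else 0 :=
  YM.sum_adm_adm (L := ld B) g b b'

lemma Am_orth' (B : LieBasis G n) (g : G) (b b' : Fin n) :
    ∑ a, Am B g a b * Am B g a b' = if b = b' then 1 else 0 := by
  rw [← Am_orth B g⁻¹ b b']
  refine Finset.sum_congr rfl fun a _ => ?_
  rw [Am_inv, Am_inv]

lemma ip_X (B : LieBasis G n) (a b : Fin n) :
    (trace ((B.X a)ᴴ * B.X b)).re = if a = b then 1 else 0 := B.orth a b

lemma Am_one (B : LieBasis G n) (b a : Fin n) : Am B 1 b a = if b = a then 1 else 0 := by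
  unfold Am
  rw [mt_one, conjTranspose_one, one_mul, mul_one, B.orth]

lemma Am_mul (B : LieBasis G n) (g h : G) (b a : Fin n) :
    Am B (g * h) b a = ∑ c, Am B g b c * Am B h c a := by
  have h1 : mt (g * h) * B.X a * (mt (g * h))ᴴ = ∑ c, Am B h c a • (mt g * B.X c * (mt g)ᴴ) := by
    rw [mt_mul, conjTranspose_mul]
    calc mt g * mt h * B.X a * ((mt h)ᴴ * (mt g)ᴴ)
        = mt g * (mt h * B.X a * (mt h)ᴴ) * (mt g)ᴴ := by noncomm_ring
      _ = _ := by
        rw [Am_conj, Finset.mul_sum, Finset.sum_mul]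
        refine Finset.sum_congr rfl fun c _ => ?_
        rw [mul_smul_comm, smul_mul_assoc]
  have h2 : Am B (g * h) b a = YM.ip (B.X b) (mt (g * h) * B.X a * (mt (g * h))ᴴ) := rfl
  rw [h2, h1, map_sum]
  refine Finset.sum_congr rfl fun c _ => ?_
  rw [map_smul, smul_eq_mul, mul_comm]
  rfl

/-- the scalar product in coordinates -/
lemma ip_sum (B : LieBasis G n) (v w : Fin n → ℝ) :
    (trace ((∑ c, v c • B.X c)ᴴ * ∑ c, w c • B.X c)).re = ∑ c, v c * w c := by
  have h1 : (trace ((∑ c, v c • B.X c)ᴴ * ∑ c, w c • B.X c)).re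
      = YM.ip (∑ c, v c • B.X c) (∑ c, w c • B.X c) := rfl
  rw [h1, map_sum]
  refine Finset.sum_congr rfl fun c _ => ?_
  rw [map_smul, YM.ip_comm, map_sum, smul_eq_mul]
  have h2 : ∀ d, YM.ip (B.X c) (v d • B.X d) = if c = d then v d else 0 := by
    intro d
    rw [map_smul, smul_eq_mul]
    have : YM.ip (B.X c) (B.X d) = if c = d then 1 else 0 := B.orth c d
    rw [this]
    split_ifs <;> simp
  simp_rw [h2]
  rw [Finset.sum_ite_eq, if_pos (Finset.mem_univ c), mul_comm]

/-! ### the magnetic energy -/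

lemma fro2_eq (M : Mt N) : fro2 M = ∑ j, ∑ i, ‖M i j‖ ^ 2 := by
  unfold fro2
  rw [trace, Complex.re_sum]
  refine Finset.sum_congr rfl fun j _ => ?_
  rw [diag_apply, mul_apply, Complex.re_sum]
  refine Finset.sum_congr rfl fun i _ => ?_
  rw [conjTranspose_apply, Complex.star_def, ← Complex.normSq_eq_conj_mul_self,
    Complex.ofReal_re, Complex.normSq_eq_norm_sq]

lemma fro2_nn (M : Mt N) : 0 ≤ fro2 M := by
  rw [fro2_eq]
  positivity

lemma fro2_zero {M : Mt N} (h : fro2 M = 0) : M = 0 := by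
  rw [fro2_eq] at h
  rw [Finset.sum_eq_zero_iff_of_nonneg fun j _ => by positivity] at h
  ext i j
  have h1 := h j (Finset.mem_univ j)
  rw [Finset.sum_eq_zero_iff_of_nonneg fun j _ => by positivity] at h1
  have h2 := h1 i (Finset.mem_univ i)
  rw [Matrix.zero_apply]
  exact norm_eq_zero.1 (pow_eq_zero_iff two_ne_zero |>.1 h2)

/-- the energy of a unitary matrix -/
lemma re_tr (g : G) : (trace (1 - mt g)).re = fro2 (1 - mt g) / 2 := by
  have h1 : (1 - mt g)ᴴ * (1 - mt g) = (1 - mt g) + (1 - mt g)ᴴ := by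
    rw [conjTranspose_sub, conjTranspose_one, sub_mul, mul_sub, mul_sub, mt_unit']
    simp only [one_mul, mul_one]
    abel
  unfold fro2
  rw [h1, trace_add, trace_conjTranspose, Complex.add_re, Complex.star_def, Complex.conj_re]
  ring

lemma re_tr_nn (g : G) : 0 ≤ (trace (1 - mt g)).re := by
  rw [re_tr]
  have := fro2_nn (1 - mt g)
  positivity

lemma re_tr_zero {g : G} (h : (trace (1 - mt g)).re = 0) : g = 1 := by
  rw [re_tr] at h
  have h1 := fro2_zero (M := 1 - mt g) (by linarith)
  exact mt_inj (sub_eq_zero.1 h1).symm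

lemma magnetic_nn [NeZero l] (U : Link D l → G) : 0 ≤ magnetic U := by
  unfold magnetic
  refine Finset.sum_nonneg fun x _ => Finset.sum_nonneg fun i _ => Finset.sum_nonneg fun j _ => ?_
  split_ifs
  · exact re_tr_nn _
  · exact le_rfl

/-- flat configurations -/
def Flat (U : Link D l → G) : Prop := ∀ (x : Fin D → ZMod l) (i j : Fin D),
  U (x, i) * U (x + unitv i, j) = U (x, j) * U (x + unitv j, i)

lemma flat_of {U : Link D l → G} (h : ∀ (x : Fin D → ZMod l) (i j : Fin D), i < j →
    plaq U x i j = 1) : Flat U := by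
  have h1 : ∀ (x : Fin D → ZMod l) (i j : Fin D), i < j →
      U (x, i) * U (x + unitv i, j) = U (x, j) * U (x + unitv j, i) := by
    intro x i j hij
    have h2 := h x i j hij
    unfold plaq at h2
    rw [mul_inv_eq_one, mul_inv_eq_iff_eq_mul] at h2
    exact h2
  intro x i j
  rcases lt_trichotomy i j with hij | hij | hij
  · exact h1 x i j hij
  · rw [hij]
  · exact (h1 x j i hij).symm

lemma magnetic_zero [NeZero l] {U : Link D l → G} (h : magnetic U = 0) : Flat U := by
  apply flat_of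
  intro x i j hij
  unfold magnetic at h
  have nn : ∀ (x : Fin D → ZMod l) (i j : Fin D),
      0 ≤ if i < j then (trace (1 - mt (plaq U x i j))).re else 0 := by
    intro x i j
    split_ifs
    · exact re_tr_nn _
    · exact le_rfl
  rw [Finset.sum_eq_zero_iff_of_nonneg fun x _ => Finset.sum_nonneg fun i _ =>
    Finset.sum_nonneg fun j _ => nn x i j] at h
  have h1 := h x (Finset.mem_univ x)
  rw [Finset.sum_eq_zero_iff_of_nonneg fun i _ => Finset.sum_nonneg fun j _ => nn x i j] at h1
  have h2 := h1 i (Finset.mem_univ i)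
  rw [Finset.sum_eq_zero_iff_of_nonneg fun j _ => nn x i j] at h2
  have h3 := h2 j (Finset.mem_univ j)
  rw [if_pos hij] at h3
  exact re_tr_zero h3

end

end Pool.Agent.Q129.LU
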