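import Pool.Agent.Q129.LU.Base

/-! Project LU (helper77), job HESSF: the matrix `hess` at flat configurations. -/

set_option autoImplicit false

namespace Pool.Agent.Q129.LU

open MeasureTheory Matrix Set Filter Topology
open scoped ContDiff Matrix.Norms.Frobenius
open Pool.Agent.Q77.LU Pool.Agent.H906R3

noncomputable section

variable {N n D l : ℕ} {G : Subgroup (UU N)}

/-! ### the covariant translations -/

lemma cov_apply (B : LieBasis G n) (U : Link D l → G) (i : Fin D)
    (p q : (Fin D → ZMod l) × Fin n) :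
    cov B U i p q = if q.1 = p.1 + unitv i then Am B (U (p.1, i)) p.2 q.2 else 0 := rfl

lemma cov_mul_t [NeZero l] (B : LieBasis G n) (U : Link D l → G) (i : Fin D) :
    cov B U i * (cov B U i)ᵀ = 1 := by
  ext ⟨x, a⟩ ⟨y, b⟩
  rw [mul_apply, Fintype.sum_prod_type]
  simp only [transpose_apply, cov_apply]
  rw [Finset.sum_eq_single (x + unitv i)]
  · simp only [if_true]
    rw [one_apply]
    by_cases hxy : x = y
    · subst hxy
      simp only [if_true, Prod.mk.injEq, true_and]
      exact Am_orth B (U (x, i)) a b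
    · have h1 : ¬ (x + unitv i = y + unitv i) := fun h => hxy (add_right_cancel h)
      simp only [h1, if_false, mul_zero, Finset.sum_const_zero]
      rw [if_neg]
      intro h
      exact hxy (Prod.mk.inj h).1
  · intro z _ hz
    simp only [hz, if_false, zero_mul, Finset.sum_const_zero]
  · simp

lemma cov_mul [NeZero l] (B : LieBasis G n) (U : Link D l → G) (i j : Fin D)
    (x y : Fin D → ZMod l) (a b : Fin n) :
    (cov B U i * cov B U j) (x, a) (y, b)
      = if y = x + unitv i + unitv j then Am B (U (x, i) * U (x + unitv i, j)) a b else 0 := by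
  rw [mul_apply, Fintype.sum_prod_type, Finset.sum_eq_single (x + unitv i)]
  · simp only [cov_apply, if_true]
    split_ifs with h
    · exact (Am_mul B _ _ a b).symm
    · simp
  · intro z _ hz
    simp only [cov_apply, hz, if_false, zero_mul, Finset.sum_const_zero]
  · simp

lemma cov_comm [NeZero l] (B : LieBasis G n) {U : Link D l → G} (hU : Flat U) (i j : Fin D) :
    cov B U i * cov B U j = cov B U j * cov B U i := by
  ext ⟨x, a⟩ ⟨y, b⟩
  rw [cov_mul, cov_mul, hU x i j, add_right_comm]

/-! ### the derivative of a plaquette -/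

/-- the indicator function of a link -/
def dl (e e' : Link D l) : ℝ := if e = e' then 1 else 0

lemma der_link (B : LieBasis G n) (U : Link D l → G) (p : Link D l × Fin n) (e : Link D l) :
    HasDerivAt (fun t => mt (Function.update U p.1 (B.ex p.2 t * U p.1) e))
      (dl e p.1 • (B.X p.2 * mt (U e))) 0 := by
  unfold dl
  by_cases h : e = p.1
  · rw [if_pos h, one_smul, h]
    have h1 : (fun t => mt (Function.update U p.1 (B.ex p.2 t * U p.1) p.1))
        = fun t => mt (B.ex p.2 t) * mt (U p.1) := by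
      funext t
      rw [Function.update_self, mt_mul]
    rw [h1]
    exact ((fm B).deriv_ex p.2).mul_const (mt (U p.1))
  · rw [if_neg h, zero_smul]
    have h1 : (fun t => mt (Function.update U p.1 (B.ex p.2 t * U p.1) e)) = fun _ => mt (U e) := by
      funext t
      rw [Function.update_of_ne h]
    rw [h1]
    exact hasDerivAt_const _ _

lemma ex_zero (B : LieBasis G n) (a : Fin n) : B.ex a 0 = 1 := (fm B).ex_zero a

lemma dpl_flat (B : LieBasis G n) {U : Link D l → G} (hU : Flat U) (x : Fin D → ZMod l)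
    (i j : Fin D) (p : Link D l × Fin n) :
    dpl B U x i j p = dl (x, i) p.1 • B.X p.2
      + dl (x + unitv i, j) p.1 • (mt (U (x, i)) * B.X p.2 * (mt (U (x, i)))ᴴ)
      - dl (x + unitv j, i) p.1 • (mt (U (x, j)) * B.X p.2 * (mt (U (x, j)))ᴴ)
      - dl (x, j) p.1 • B.X p.2 := by
  have h1 := der_link B U p (x, i)
  have h2 := der_link B U p (x + unitv i, j)
  have h3 := YM.hasDeriv_ct (der_link B U p (x + unitv j, i))
  have h4 := YM.hasDeriv_ct (der_link B U p (x, j))
  have h5 := ((h1.fun_mul h2).fun_mul h3).fun_mul h4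
  have hz : Function.update U p.1 (B.ex p.2 0 * U p.1) = U := by
    rw [ex_zero, one_mul, Function.update_eq_self]
  rw [hz] at h5
  have hfl : mt (U (x, i)) * mt (U (x + unitv i, j))
      = mt (U (x, j)) * mt (U (x + unitv j, i)) := by
    rw [← mt_mul, ← mt_mul, hU x i j]
  have halg := YM.plq_alg (mt_unit' (U (x, i))) (mt_unit (U (x, i)))
    (mt_unit (U (x + unitv j, i))) (mt_unit' (U (x, j))) (mt_unit (U (x, j)))
    (skewX B p.2) hfl (dl (x, i) p.1) (dl (x + unitv i, j) p.1) (dl (x + unitv j, i) p.1)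
    (dl (x, j) p.1)
  unfold dpl
  refine HasDerivAt.deriv ?_
  have e0 : (fun t => mt (plaq (Function.update U p.1 (B.ex p.2 t * U p.1)) x i j))
      = fun t => mt (Function.update U p.1 (B.ex p.2 t * U p.1) (x, i))
        * mt (Function.update U p.1 (B.ex p.2 t * U p.1) (x + unitv i, j))
        * (mt (Function.update U p.1 (B.ex p.2 t * U p.1) (x + unitv j, i)))ᴴ
        * (mt (Function.update U p.1 (B.ex p.2 t * U p.1) (x, j)))ᴴ := by
    funext t
    rfl
  rw [e0]
  refine h5.congr_deriv ?_
  rw [← halg, add_mul, add_mul, add_mul]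

/-- the derivative of a plaquette in the basis -/
lemma dpl_cov [NeZero l] (B : LieBasis G n) {U : Link D l → G} (hU : Flat U)
    (x : Fin D → ZMod l) (i j : Fin D) (y : Fin D → ZMod l) (k : Fin D) (a : Fin n) :
    dpl B U x i j ((y, k), a) = ∑ c, ((if k = j then (cov B U i - 1) (x, c) (y, a) else 0)
      - (if k = i then (cov B U j - 1) (x, c) (y, a) else 0)) • B.X c := by
  rw [dpl_flat B hU]
  have hb : B.X a = ∑ c, (if c = a then (1 : ℝ) else 0) • B.X c := by
    simp
  have e1 : dl (x, i) (y, k) • B.X a = ∑ c, (if k = i ∧ y = x ∧ c = a then (1 : ℝ) else 0)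
      • B.X c := by
    unfold dl
    by_cases h : k = i ∧ y = x
    · obtain ⟨h1, h2⟩ := h
      subst h1 h2
      simp
    · have h1 : ¬ ((x, i) = (y, k)) := by
        intro h2
        obtain ⟨h3, h4⟩ := Prod.mk.inj h2
        exact h ⟨h4.symm, h3.symm⟩
      rw [if_neg h1, zero_smul]
      refine (Finset.sum_eq_zero fun c _ => ?_).symm
      rw [if_neg (fun h2 => h ⟨h2.1, h2.2.1⟩), zero_smul]
  have e4 : dl (x, j) (y, k) • B.X a = ∑ c, (if k = j ∧ y = x ∧ c = a then (1 : ℝ) else 0)
      • B.X c := by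
    unfold dl
    by_cases h : k = j ∧ y = x
    · obtain ⟨h1, h2⟩ := h
      subst h1 h2
      simp
    · have h1 : ¬ ((x, j) = (y, k)) := by
        intro h2
        obtain ⟨h3, h4⟩ := Prod.mk.inj h2
        exact h ⟨h4.symm, h3.symm⟩
      rw [if_neg h1, zero_smul]
      refine (Finset.sum_eq_zero fun c _ => ?_).symm
      rw [if_neg (fun h2 => h ⟨h2.1, h2.2.1⟩), zero_smul]
  have e23 : ∀ i j : Fin D, dl (x + unitv i, j) (y, k) •
      (mt (U (x, i)) * B.X a * (mt (U (x, i)))ᴴ)
      = ∑ c, (if k = j then cov B U i (x, c) (y, a) else 0) • B.X c := by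
    intro i j
    rw [Am_conj]
    unfold dl
    by_cases h : k = j ∧ y = x + unitv i
    · obtain ⟨h1, h2⟩ := h
      subst h1 h2
      simp only [if_true, one_smul, cov_apply]
    · have h1 : ¬ ((x + unitv i, j) = (y, k)) := by
        intro h2
        obtain ⟨h3, h4⟩ := Prod.mk.inj h2
        exact h ⟨h4.symm, h3.symm⟩
      rw [if_neg h1, zero_smul]
      refine (Finset.sum_eq_zero fun c _ => ?_).symm
      rw [cov_apply]
      by_cases hk : k = j
      · have h2 : ¬ (y = x + unitv i) := fun h3 => h ⟨hk, h3⟩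
        simp only [h2, if_false, ite_self, zero_smul]
      · rw [if_neg hk, zero_smul]
  change dl (x, i) (y, k) • B.X a + dl (x + unitv i, j) (y, k) •
      (mt (U (x, i)) * B.X a * (mt (U (x, i)))ᴴ) - dl (x + unitv j, i) (y, k) •
      (mt (U (x, j)) * B.X a * (mt (U (x, j)))ᴴ) - dl (x, j) (y, k) • B.X a = _
  rw [e1, e4, e23 i j, e23 j i, ← Finset.sum_add_distrib, ← Finset.sum_sub_distrib,
    ← Finset.sum_sub_distrib]
  refine Finset.sum_congr rfl fun c _ => ?_
  rw [← add_smul, ← sub_smul, ← sub_smul]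
  congr 1
  have hδ : (1 : Matrix ((Fin D → ZMod l) × Fin n) ((Fin D → ZMod l) × Fin n) ℝ) (x, c) (y, a)
      = if y = x ∧ c = a then 1 else 0 := by
    rw [Matrix.one_apply]
    by_cases h : y = x ∧ c = a
    · rw [if_pos h, if_pos (by rw [h.1, h.2])]
    · rw [if_neg h, if_neg]
      intro h1
      obtain ⟨h2, h3⟩ := Prod.mk.inj h1
      exact h ⟨h2.symm, h3⟩
  simp only [Matrix.sub_apply, hδ, ite_and]
  by_cases h1 : k = j
  · by_cases h2 : k = i
    · simp only [if_pos h1, if_pos h2]
      ring
    · simp only [if_pos h1, if_neg h2]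
      ring
  · by_cases h2 : k = i
    · simp only [if_neg h1, if_pos h2]
      ring
    · simp only [if_neg h1, if_neg h2]
      ring

/-! ### the Gram matrix -/

lemma covt_comm [NeZero l] (B : LieBasis G n) {U : Link D l → G} (hU : Flat U) (i j : Fin D) :
    (cov B U j)ᵀ * cov B U i = cov B U i * (cov B U j)ᵀ := by
  have h1 := cov_mul_t B U j
  have h2 : (cov B U j)ᵀ * cov B U j = 1 := mul_eq_one_comm.1 h1
  calc (cov B U j)ᵀ * cov B U i = (cov B U j)ᵀ * cov B U i * (cov B U j * (cov B U j)ᵀ) := by
        rw [h1, mul_one]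
    _ = (cov B U j)ᵀ * (cov B U i * cov B U j) * (cov B U j)ᵀ := by
        simp only [Matrix.mul_assoc]
    _ = (cov B U j)ᵀ * (cov B U j * cov B U i) * (cov B U j)ᵀ := by rw [cov_comm B hU]
    _ = ((cov B U j)ᵀ * cov B U j) * cov B U i * (cov B U j)ᵀ := by
        simp only [Matrix.mul_assoc]
    _ = _ := by rw [h2, one_mul]

lemma D_comm [NeZero l] (B : LieBasis G n) {U : Link D l → G} (hU : Flat U) (i j : Fin D) :
    (cov B U j - 1)ᵀ * (cov B U i - 1) = (cov B U i - 1) * (cov B U j - 1)ᵀ := by
  rw [transpose_sub, transpose_one, sub_mul, mul_sub, mul_sub, sub_mul, mul_sub, mul_sub,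
    covt_comm B hU]
  simp only [one_mul, mul_one]
  abel

/-- indicator of equality -/
def io (k j : Fin D) : ℝ := if k = j then 1 else 0

lemma io_sum (k : Fin D) (f : Fin D → ℝ) : ∑ j, io k j * f j = f k := by
  unfold io
  simp

lemma io_comm (k j : Fin D) : io k j = io j k := by
  unfold io
  simp only [eq_comm]

lemma gram_alg (k k' : Fin D) (E E' : Fin D → ℝ) :
    ∑ i, ∑ j, (io k j * E i - io k i * E j) * (io k' j * E' i - io k' i * E' j)
      = 2 * (io k k' * ∑ i, E i * E' i - E k' * E' k) := by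
  have e : ∀ i j, (io k j * E i - io k i * E j) * (io k' j * E' i - io k' i * E' j)
      = io k j * (io k' j * (E i * E' i)) - io k j * (io k' i * (E i * E' j))
        - io k i * (io k' j * (E j * E' i)) + io k i * (io k' i * (E j * E' j)) := by
    intro i j
    ring
  simp_rw [e, Finset.sum_add_distrib, Finset.sum_sub_distrib, io_sum, ← Finset.mul_sum, io_sum]
  rw [io_comm k' k]
  ring

/-- HESSF -/
theorem t_HESSF : S_HESSF := by
  intro N n D l _ G hG B U hmag
  have hU := magnetic_zero hmag
  refine ⟨fun i => cov_mul_t B U i, fun i j => cov_comm B hU i j, ?_⟩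
  intro y y' k k' a b
  obtain ⟨E, hE⟩ : ∃ E : Fin D → (Fin D → ZMod l) → Fin n → (Fin D → ZMod l) → Fin n → ℝ,
      E = fun i x c y a => (cov B U i - 1) (x, c) (y, a) := ⟨_, rfl⟩
  -- the coefficients
  obtain ⟨K, hK⟩ : ∃ K : Fin D → Fin D → (Fin D → ZMod l) → Fin n → (Fin D → ZMod l) → Fin D →
      Fin n → ℝ, K = fun i j x c y k a => io k j * E i x c y a - io k i * E j x c y a := ⟨_, rfl⟩
  have hd : ∀ x i j y k a, dpl B U x i j ((y, k), a) = ∑ c, K i j x c y k a • B.X c := by
    intro x i j y k a
    rw [hK, hE, dpl_cov B hU x i j y k a]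
    refine Finset.sum_congr rfl fun c _ => ?_
    unfold io
    simp only [ite_mul, one_mul, zero_mul]
  have h1 : hess B U ((y, k), a) ((y', k'), b)
      = ∑ x : Fin D → ZMod l, ∑ i : Fin D, ∑ j : Fin D,
        if i < j then ∑ c, K i j x c y k a * K i j x c y' k' b else 0 := by
    unfold hess
    refine Finset.sum_congr rfl fun x _ => Finset.sum_congr rfl fun i _ =>
      Finset.sum_congr rfl fun j _ => ?_
    rw [hd, hd, ip_sum]
  have hanti : ∀ i j x c y k a, K j i x c y k a = -K i j x c y k a := by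
    intro i j x c y k a
    rw [hK]
    ring
  have h2 : ∀ x : Fin D → ZMod l, (∑ i : Fin D, ∑ j : Fin D,
      if i < j then ∑ c, K i j x c y k a * K i j x c y' k' b else 0)
      = 1 / 2 * ∑ i : Fin D, ∑ j : Fin D, ∑ c, K i j x c y k a * K i j x c y' k' b := by
    intro x
    have e1 : ∀ i j, ∑ c, K i j x c y k a * K i j x c y' k' b
        = (if i < j then ∑ c, K i j x c y k a * K i j x c y' k' b else 0)
          + (if j < i then ∑ c, K j i x c y k a * K j i x c y' k' b else 0) := by
      intro i j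
      rcases lt_trichotomy i j with hij | hij | hij
      · rw [if_pos hij, if_neg (not_lt.2 hij.le), add_zero]
      · subst hij
        simp only [lt_irrefl, if_false, add_zero]
        refine Finset.sum_eq_zero fun c _ => ?_
        have := hanti i i x c y k a
        have h0 : K i i x c y k a = 0 := by linarith
        rw [h0, zero_mul]
      · rw [if_neg (not_lt.2 hij.le), if_pos hij, zero_add]
        refine Finset.sum_congr rfl fun c _ => ?_
        rw [hanti j i, hanti j i]
        ring
    have e2 : ∑ i : Fin D, ∑ j : Fin D, ∑ c, K i j x c y k a * K i j x c y' k' b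
        = 2 * ∑ i : Fin D, ∑ j : Fin D,
          if i < j then ∑ c, K i j x c y k a * K i j x c y' k' b else 0 := by
      rw [Finset.sum_congr rfl fun i _ => Finset.sum_congr rfl fun j _ => e1 i j]
      simp_rw [Finset.sum_add_distrib]
      rw [two_mul]
      congr 1
      exact Finset.sum_comm
    rw [e2]
    ring
  have h3 : ∀ x, ∑ i : Fin D, ∑ j : Fin D, ∑ c, K i j x c y k a * K i j x c y' k' b
      = 2 * (io k k' * (∑ i, ∑ c, E i x c y a * E i x c y' b)
        - ∑ c, E k' x c y a * E k x c y' b) := by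
    intro x
    have e1 : ∑ i : Fin D, ∑ j : Fin D, ∑ c, K i j x c y k a * K i j x c y' k' b
        = ∑ c, ∑ i : Fin D, ∑ j : Fin D, K i j x c y k a * K i j x c y' k' b := by
      rw [Finset.sum_congr rfl fun i _ => Finset.sum_comm]
      exact Finset.sum_comm
    rw [e1, hK]
    rw [Finset.sum_congr rfl fun c _ => gram_alg k k' (fun i => E i x c y a)
      (fun i => E i x c y' b), ← Finset.mul_sum, Finset.sum_sub_distrib, ← Finset.mul_sum,
      Finset.sum_comm]
  have hprod : ∀ i j, ∑ x, ∑ c, E i x c y a * E j x c y' b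
      = ((cov B U i - 1)ᵀ * (cov B U j - 1) : Matrix ((Fin D → ZMod l) × Fin n)
        ((Fin D → ZMod l) × Fin n) ℝ) (y, a) (y', b) := by
    intro i j
    rw [mul_apply, Fintype.sum_prod_type, hE]
    rfl
  rw [h1, Finset.sum_congr rfl fun x _ => h2 x, ← Finset.mul_sum,
    Finset.sum_congr rfl fun x _ => h3 x, ← Finset.mul_sum, Finset.sum_sub_distrib,
    ← Finset.mul_sum, hprod, D_comm B hU, ← mul_assoc, Finset.sum_comm,
    Finset.sum_congr rfl fun i _ => hprod i i]
  norm_num
  unfold io lapU
  rw [Matrix.sum_apply]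
  split_ifs <;> simp

end

end Pool.Agent.Q129.LU
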