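import Pool.Agent.Q129.LU.Hessf

/-! Project LU (helper77), job SYMM: the adjoint action in the chart. -/

set_option autoImplicit false

namespace Pool.Agent.Q129.LU

open MeasureTheory Matrix Set Filter Topology
open scoped ContDiff Matrix.Norms.Frobenius
open Pool.Agent.Q77.LU Pool.Agent.H906R3

noncomputable section

variable {N n D l : ℕ} {G : Subgroup (UU N)}

/-! ### the adjoint representation -/

lemma conj_lin (B : LieBasis G n) (h : G) (v : Fin n → ℝ) :
    mt h * lin B v * (mt h)ᴴ = ∑ b, (∑ c, Am B h b c * v c) • B.X b := by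
  unfold lin
  rw [Finset.mul_sum, Finset.sum_mul]
  have h1 : ∀ c, mt h * (v c • B.X c) * (mt h)ᴴ = ∑ b, (Am B h b c * v c) • B.X b := by
    intro c
    rw [mul_smul_comm, smul_mul_assoc, Am_conj, Finset.smul_sum]
    refine Finset.sum_congr rfl fun b _ => ?_
    rw [smul_smul, mul_comm]
  simp_rw [h1]
  rw [Finset.sum_comm]
  refine Finset.sum_congr rfl fun b _ => ?_
  rw [Finset.sum_smul]

lemma Ad_apply (B : LieBasis G n) (h : G) (v : Fin n → ℝ) (a : Fin n) :
    Ad B h v a = ∑ c, Am B h a c * v c := by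
  unfold Ad
  rw [conj_lin]
  have h1 : (trace ((B.X a)ᴴ * ∑ b, (∑ c, Am B h b c * v c) • B.X b)).re
      = YM.ip (B.X a) (∑ b, (∑ c, Am B h b c * v c) • B.X b) := rfl
  rw [h1, map_sum]
  have h2 : ∀ b, YM.ip (B.X a) ((∑ c, Am B h b c * v c) • B.X b)
      = if a = b then ∑ c, Am B h b c * v c else 0 := by
    intro b
    rw [map_smul, smul_eq_mul]
    have : YM.ip (B.X a) (B.X b) = if a = b then 1 else 0 := B.orth a b
    rw [this]
    split_ifs <;> simp
  simp_rw [h2]
  rw [Finset.sum_ite_eq, if_pos (Finset.mem_univ a)]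

lemma lin_Ad (B : LieBasis G n) (h : G) (v : Fin n → ℝ) :
    lin B (Ad B h v) = mt h * lin B v * (mt h)ᴴ := by
  rw [conj_lin]
  unfold lin
  refine Finset.sum_congr rfl fun b _ => ?_
  rw [Ad_apply]

lemma Ad_ip (B : LieBasis G n) (h : G) (v w : Fin n → ℝ) :
    ∑ a, (∑ c, Am B h a c * v c) * (∑ c, Am B h a c * w c) = ∑ c, v c * w c := by
  obtain ⟨M, hM⟩ : ∃ M : Matrix (Fin n) (Fin n) ℝ, M = fun b a => Am B h b a := ⟨_, rfl⟩
  have h1 : Mᵀ * M = 1 := by
    ext b b'
    rw [mul_apply, hM]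
    exact (Am_orth' B h b b').trans (one_apply).symm
  have h2 : (M *ᵥ v) ⬝ᵥ (M *ᵥ w) = v ⬝ᵥ w := by
    rw [dotProduct_mulVec, ← vecMul_transpose, vecMul_vecMul, h1, vecMul_one]
  rw [hM] at h2
  exact h2

variable {ι : Type}

lemma adF_apply (B : LieBasis G n) (h : G) (y : ι × Fin n → ℝ) (p : ι × Fin n) :
    adF B h y p = ∑ c, Am B h p.2 c * y (p.1, c) := Ad_apply B h _ _

lemma adF_ip [Fintype ι] (B : LieBasis G n) (h : G) (y z : ι × Fin n → ℝ) :
    ∑ p, adF B h y p * adF B h z p = ∑ p, y p * z p := by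
  rw [Fintype.sum_prod_type, Fintype.sum_prod_type]
  refine Finset.sum_congr rfl fun e _ => ?_
  simp only [adF_apply]
  exact Ad_ip B h (fun c => y (e, c)) (fun c => z (e, c))

lemma adF_n2 [Fintype ι] (B : LieBasis G n) (h : G) (y : ι × Fin n → ℝ) :
    n2 (adF B h y) = n2 y := by
  have h1 := adF_ip B h y y
  unfold n2
  simpa only [pow_two] using h1

lemma adF_mul (B : LieBasis G n) (g h : G) (y : ι × Fin n → ℝ) :
    adF B g (adF B h y) = adF B (g * h) y := by
  funext p
  rw [adF_apply, adF_apply]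
  simp only [adF_apply, Am_mul, Finset.mul_sum, Finset.sum_mul]
  rw [Finset.sum_comm]
  refine Finset.sum_congr rfl fun c _ => Finset.sum_congr rfl fun b _ => ?_
  ring

lemma adF_one (B : LieBasis G n) (y : ι × Fin n → ℝ) : adF B 1 y = y := by
  funext p
  rw [adF_apply]
  simp only [Am_one, ite_mul, one_mul, zero_mul]
  rw [Finset.sum_ite_eq, if_pos (Finset.mem_univ _)]

lemma adF_add (B : LieBasis G n) (h : G) (y z : ι × Fin n → ℝ) :
    adF B h (fun p => y p + z p) = fun p => adF B h y p + adF B h z p := by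
  funext p
  simp only [adF_apply, mul_add, Finset.sum_add_distrib]

lemma adF_smul (B : LieBasis G n) (h : G) (c : ℝ) (y : ι × Fin n → ℝ) :
    adF B h (fun p => c * y p) = fun p => c * adF B h y p := by
  funext p
  simp only [adF_apply, Finset.mul_sum]
  refine Finset.sum_congr rfl fun b _ => ?_
  ring

lemma adF_sum {K : Type} (s : Finset K) (B : LieBasis G n) (h : G) (y : K → ι × Fin n → ℝ) :
    adF B h (fun p => ∑ k ∈ s, y k p) = fun p => ∑ k ∈ s, adF B h (y k) p := by
  funext p
  simp only [adF_apply, Finset.mul_sum]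
  exact Finset.sum_comm

/-! ### the matrix hess at the trivial configuration -/

lemma flat_one : Flat (fun _ : Link D l => (1 : G)) := fun _ _ _ => rfl

/-- the kernel of `hess` at the trivial configuration -/
def kc (D l : ℕ) (x : Fin D → ZMod l) (i j : Fin D) (e : Link D l) : ℝ :=
  dl (x, i) e + dl (x + unitv i, j) e - dl (x + unitv j, i) e - dl (x, j) e

lemma dpl_one (B : LieBasis G n) (x : Fin D → ZMod l) (i j : Fin D) (p : Link D l × Fin n) :
    dpl B (fun _ : Link D l => (1 : G)) x i j p = kc D l x i j p.1 • B.X p.2 := by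
  rw [dpl_flat B flat_one]
  have h1 : mt (1 : G) * B.X p.2 * (mt (1 : G))ᴴ = B.X p.2 := by
    rw [mt_one, conjTranspose_one, one_mul, mul_one]
  rw [h1, ← add_smul, ← sub_smul, ← sub_smul]
  rfl

/-- the scalar part -/
def hs (D l : ℕ) [NeZero l] (e e' : Link D l) : ℝ :=
  ∑ x : Fin D → ZMod l, ∑ i : Fin D, ∑ j : Fin D,
    if i < j then kc D l x i j e * kc D l x i j e' else 0

lemma hess_one [NeZero l] (B : LieBasis G n) (e e' : Link D l) (a b : Fin n) :
    hess B (fun _ : Link D l => (1 : G)) (e, a) (e', b) = hs D l e e' * if a = b then 1 else 0 := by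
  unfold hess hs
  simp only [Finset.sum_mul]
  refine Finset.sum_congr rfl fun x _ => Finset.sum_congr rfl fun i _ =>
    Finset.sum_congr rfl fun j _ => ?_
  rw [dpl_one, dpl_one]
  have h1 : (trace ((kc D l x i j e • B.X a)ᴴ * kc D l x i j e' • B.X b)).re
      = YM.ip (kc D l x i j e • B.X a) (kc D l x i j e' • B.X b) := rfl
  have h2 : YM.ip (B.X b) (B.X a) = if a = b then 1 else 0 := by
    rw [YM.ip_comm]
    exact B.orth a b
  simp only
  rw [h1, map_smul, YM.ip_comm, map_smul, h2]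
  simp only [smul_eq_mul]
  split_ifs <;> ring

lemma hs_symm [NeZero l] (e e' : Link D l) : hs D l e e' = hs D l e' e := by
  unfold hs
  refine Finset.sum_congr rfl fun x _ => Finset.sum_congr rfl fun i _ =>
    Finset.sum_congr rfl fun j _ => ?_
  rw [mul_comm]

lemma hess_mulVec [NeZero l] (B : LieBasis G n) (y : Link D l × Fin n → ℝ)
    (p : Link D l × Fin n) : (hess B (fun _ : Link D l => (1 : G))).mulVec y p
      = ∑ e, hs D l p.1 e * y (e, p.2) := by
  obtain ⟨e, a⟩ := p
  rw [mulVec, dotProduct, Fintype.sum_prod_type]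
  refine Finset.sum_congr rfl fun e' _ => ?_
  simp only [hess_one, mul_ite, mul_one, mul_zero, ite_mul, zero_mul]
  rw [Finset.sum_ite_eq, if_pos (Finset.mem_univ a)]

lemma hess_adF [NeZero l] (B : LieBasis G n) (h : G) (y : Link D l × Fin n → ℝ) :
    (hess B (fun _ : Link D l => (1 : G))).mulVec (adF B h y)
      = adF B h ((hess B (fun _ : Link D l => (1 : G))).mulVec y) := by
  funext p
  rw [hess_mulVec, adF_apply]
  simp only [adF_apply, hess_mulVec, Finset.mul_sum]
  rw [Finset.sum_comm]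
  refine Finset.sum_congr rfl fun c _ => Finset.sum_congr rfl fun e _ => ?_
  ring

lemma hess_ip [NeZero l] (B : LieBasis G n) (y z : Link D l × Fin n → ℝ) :
    ∑ p, (hess B (fun _ : Link D l => (1 : G))).mulVec y p * z p
      = ∑ p, y p * (hess B (fun _ : Link D l => (1 : G))).mulVec z p := by
  have h1 : (hess B (fun _ : Link D l => (1 : G)))ᵀ = hess B (fun _ : Link D l => (1 : G)) := by
    ext ⟨e, a⟩ ⟨e', b⟩
    rw [transpose_apply, hess_one, hess_one, hs_symm]
    simp only [eq_comm]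
  have h2 : y ⬝ᵥ (hess B (fun _ : Link D l => (1 : G))).mulVec z
      = (hess B (fun _ : Link D l => (1 : G))).mulVec y ⬝ᵥ z := by
    rw [dotProduct_mulVec, ← mulVec_transpose, h1]
  exact h2.symm

/-! ### the span of the oscillators -/

variable [NeZero l] {B : LieBasis G n}

lemma sum_shift (f : (Fin D → ZMod l) → ℝ) (v : Fin D → ZMod l) :
    ∑ x, f (x + v) = ∑ x, f x :=
  Fintype.sum_equiv (Equiv.addRight v) _ _ fun _ => rfl

/-- a field with mean zero and without divergence is orthogonal to the constants and gradients -/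
lemma co_zero (w : Link D l × Fin n → ℝ) (hm : ∀ (j : Fin D) (a : Fin n), ∑ x, w ((x, j), a) = 0)
    (hd : ∀ (x : Fin D → ZMod l) (a : Fin n),
      ∑ j : Fin D, (w ((x, j), a) - w ((x - unitv j, j), a)) = 0)
    (C : Fin D × Fin n → ℝ) (ζ : (Fin D → ZMod l) × Fin n → ℝ)
    (hw : ∀ p, w p = cons D l C p + (ζ (p.1.1 + unitv p.1.2, p.2) - ζ (p.1.1, p.2))) :
    ∀ p, w p = 0 := by
  have h1 : ∑ p, w p * w p = 0 := by
    have e1 : ∀ p, w p * w p = w p * cons D l C p
        + (w p * ζ (p.1.1 + unitv p.1.2, p.2) - w p * ζ (p.1.1, p.2)) := by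
      intro p
      nth_rewrite 2 [hw p]
      ring
    simp_rw [e1]
    rw [Finset.sum_add_distrib, Finset.sum_sub_distrib]
    have e2 : ∑ p, w p * cons D l C p = 0 := by
      rw [Fintype.sum_prod_type, Fintype.sum_prod_type]
      rw [Finset.sum_comm]
      refine Finset.sum_eq_zero fun j _ => ?_
      rw [Finset.sum_comm]
      refine Finset.sum_eq_zero fun a _ => ?_
      change ∑ x, w ((x, j), a) * ((Real.sqrt ((l : ℝ) ^ D))⁻¹ * C (j, a)) = 0
      rw [← Finset.sum_mul, hm, zero_mul]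
    have e3 : ∑ p : Link D l × Fin n, w p * ζ (p.1.1 + unitv p.1.2, p.2)
        = ∑ j : Fin D, ∑ a : Fin n, ∑ x : Fin D → ZMod l, w ((x - unitv j, j), a) * ζ (x, a) := by
      rw [Fintype.sum_prod_type, Fintype.sum_prod_type]
      rw [Finset.sum_comm]
      refine Finset.sum_congr rfl fun j _ => ?_
      rw [Finset.sum_comm]
      refine Finset.sum_congr rfl fun a _ => ?_
      rw [← sum_shift (fun x => w ((x - unitv j, j), a) * ζ (x, a)) (unitv j)]
      simp only [add_sub_cancel_right]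
    have e4 : ∑ p : Link D l × Fin n, w p * ζ (p.1.1, p.2)
        = ∑ j : Fin D, ∑ a : Fin n, ∑ x : Fin D → ZMod l, w ((x, j), a) * ζ (x, a) := by
      rw [Fintype.sum_prod_type, Fintype.sum_prod_type]
      rw [Finset.sum_comm]
      refine Finset.sum_congr rfl fun j _ => ?_
      rw [Finset.sum_comm]
    rw [e2, e3, e4, zero_add, ← Finset.sum_sub_distrib]
    simp_rw [← Finset.sum_sub_distrib, ← sub_mul]
    rw [Finset.sum_comm]
    refine Finset.sum_eq_zero fun a _ => ?_
    rw [Finset.sum_comm]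
    refine Finset.sum_eq_zero fun x _ => ?_
    rw [← Finset.sum_mul]
    have h5 := hd x a
    rw [Finset.sum_sub_distrib] at h5
    rw [Finset.sum_sub_distrib]
    have : (∑ j : Fin D, w ((x - unitv j, j), a)) - ∑ j : Fin D, w ((x, j), a) = 0 := by linarith
    rw [this, zero_mul]
  intro p
  rw [Finset.sum_eq_zero_iff_of_nonneg fun p _ => mul_self_nonneg (w p)] at h1
  exact mul_self_eq_zero.1 (h1 p (Finset.mem_univ p))

/-- the oscillators -/
def os (dc : Dec B D l) (x : Fin dc.M → ℝ) (p : Link D l × Fin n) : ℝ := ∑ j, x j * dc.b j p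

lemma os_ip (dc : Dec B D l) (x : Fin dc.M → ℝ) (i : Fin dc.M) :
    ∑ p, dc.b i p * os dc x p = x i := by
  unfold os
  simp only [Finset.mul_sum]
  rw [Finset.sum_comm]
  have h1 : ∀ j, ∑ p, dc.b i p * (x j * dc.b j p) = if i = j then x j else 0 := by
    intro j
    have h2 : ∑ p, dc.b i p * (x j * dc.b j p) = x j * ∑ p, dc.b i p * dc.b j p := by
      rw [Finset.mul_sum]
      refine Finset.sum_congr rfl fun p _ => ?_
      ring
    rw [h2, dc.orth]
    split_ifs <;> simp
  simp_rw [h1]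
  rw [Finset.sum_ite_eq, if_pos (Finset.mem_univ i)]

lemma os_os (dc : Dec B D l) (x y : Fin dc.M → ℝ) :
    ∑ p, os dc x p * os dc y p = ∑ i, x i * y i := by
  have h1 : ∀ p, os dc x p * os dc y p = ∑ i, x i * (dc.b i p * os dc y p) := by
    intro p
    rw [os, Finset.sum_mul]
    refine Finset.sum_congr rfl fun i _ => ?_
    ring
  simp_rw [h1]
  rw [Finset.sum_comm]
  refine Finset.sum_congr rfl fun i _ => ?_
  rw [← Finset.mul_sum, os_ip]

/-- the matrix of the adjoint action on the oscillators -/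
def al (dc : Dec B D l) (h : G) (x : Fin dc.M → ℝ) (i : Fin dc.M) : ℝ :=
  ∑ p, dc.b i p * adF B h (os dc x) p

/-- the adjoint action preserves the span of the oscillators -/
lemma adF_os (dc : Dec B D l) (h : G) (x : Fin dc.M → ℝ) :
    adF B h (os dc x) = os dc (al dc h x) := by
  obtain ⟨C, a, ζ, hh⟩ := dc.hodge (adF B h (os dc x))
  have hm : ∀ (j : Fin D) (c : Fin n), ∑ y, adF B h (os dc x) ((y, j), c) = 0 := by
    intro j c
    simp only [adF_apply]
    rw [Finset.sum_comm]
    refine Finset.sum_eq_zero fun b _ => ?_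
    rw [← Finset.mul_sum]
    unfold os
    rw [Finset.sum_comm]
    have : ∑ i, ∑ y, x i * dc.b i ((y, j), b) = 0 := by
      refine Finset.sum_eq_zero fun i _ => ?_
      rw [← Finset.mul_sum, dc.mean, mul_zero]
    rw [this, mul_zero]
  have hd : ∀ (y : Fin D → ZMod l) (c : Fin n), ∑ j : Fin D, (adF B h (os dc x) ((y, j), c)
      - adF B h (os dc x) ((y - unitv j, j), c)) = 0 := by
    intro y c
    simp only [adF_apply, ← Finset.sum_sub_distrib, ← mul_sub]
    rw [Finset.sum_comm]
    refine Finset.sum_eq_zero fun b _ => ?_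
    rw [← Finset.mul_sum]
    unfold os
    simp only [← Finset.sum_sub_distrib, ← mul_sub]
    rw [Finset.sum_comm]
    have : ∑ i, ∑ j, x i * (dc.b i ((y, j), b) - dc.b i ((y - unitv j, j), b)) = 0 := by
      refine Finset.sum_eq_zero fun i _ => ?_
      rw [← Finset.mul_sum, dc.div, mul_zero]
    rw [this, mul_zero]
  have hz := co_zero (fun p => adF B h (os dc x) p - os dc a p) ?_ ?_ C ζ ?_
  · have h1 : adF B h (os dc x) = os dc a := by
      funext p
      have := hz p
      linarith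
    rw [h1]
    congr 1
    funext i
    unfold al
    rw [h1, os_ip]
  · intro j c
    rw [Finset.sum_sub_distrib, hm, zero_sub, neg_eq_zero]
    unfold os
    rw [Finset.sum_comm]
    refine Finset.sum_eq_zero fun i _ => ?_
    rw [← Finset.mul_sum, dc.mean, mul_zero]
  · intro y c
    have e1 : ∀ j : Fin D, (adF B h (os dc x) ((y, j), c) - os dc a ((y, j), c))
        - (adF B h (os dc x) ((y - unitv j, j), c) - os dc a ((y - unitv j, j), c))
        = (adF B h (os dc x) ((y, j), c) - adF B h (os dc x) ((y - unitv j, j), c))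
          - (os dc a ((y, j), c) - os dc a ((y - unitv j, j), c)) := by
      intro j
      ring
    simp only [e1]
    rw [Finset.sum_sub_distrib, hd, zero_sub, neg_eq_zero]
    unfold os
    simp only [← Finset.sum_sub_distrib, ← mul_sub]
    rw [Finset.sum_comm]
    refine Finset.sum_eq_zero fun i _ => ?_
    rw [← Finset.mul_sum, dc.div, mul_zero]
  · intro p
    have := hh p
    rw [this]
    unfold os
    ring

/-- the adjoint action commutes with the frequencies -/
lemma al_om (dc : Dec B D l) (h : G) (x : Fin dc.M → ℝ) (i : Fin dc.M) :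
    al dc h (fun j => dc.om j * x j) i = dc.om i * al dc h x i := by
  -- the matrix coefficients
  obtain ⟨r, hr⟩ : ∃ r : Fin dc.M → Fin dc.M → ℝ,
    r = fun i j => ∑ p, dc.b i p * adF B h (dc.b j) p := ⟨_, rfl⟩
  have h1 : ∀ i j, dc.om i ^ 2 * r i j = r i j * dc.om j ^ 2 := by
    intro i j
    have a1 := hess_ip B (dc.b i) (adF B h (dc.b j))
    rw [hess_adF, dc.eig, dc.eig] at a1
    have a2 : adF B h (dc.om j ^ 2 • dc.b j) = fun p => dc.om j ^ 2 * adF B h (dc.b j) p :=
      adF_smul B h (dc.om j ^ 2) (dc.b j)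
    rw [a2] at a1
    rw [hr]
    simp only
    rw [Finset.mul_sum, Finset.sum_mul]
    have a3 : ∀ p, (dc.om i ^ 2 • dc.b i) p * adF B h (dc.b j) p
        = dc.om i ^ 2 * (dc.b i p * adF B h (dc.b j) p) := by
      intro p
      rw [Pi.smul_apply, smul_eq_mul]
      ring
    rw [Finset.sum_congr rfl fun p _ => a3 p] at a1
    rw [a1]
    refine Finset.sum_congr rfl fun p _ => ?_
    ring
  have h2 : ∀ i j, dc.om i * r i j = r i j * dc.om j := by
    intro i j
    by_cases h0 : r i j = 0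
    · rw [h0]
      ring
    · have a1 := h1 i j
      have a2 : dc.om i ^ 2 = dc.om j ^ 2 := by
        rw [mul_comm] at a1
        exact mul_left_cancel₀ h0 a1
      have a3 : dc.om i = dc.om j :=
        (pow_left_inj₀ (dc.ompos i).le (dc.ompos j).le two_ne_zero).1 a2
      rw [a3]
      ring
  have h3 : ∀ (x : Fin dc.M → ℝ) i, al dc h x i = ∑ j, r i j * x j := by
    intro x i
    unfold al
    have a1 : adF B h (os dc x) = fun p => ∑ j, x j * adF B h (dc.b j) p := by
      have a2 : os dc x = fun p => ∑ j, x j * dc.b j p := rfl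
      rw [a2, adF_sum Finset.univ B h (fun j p => x j * dc.b j p)]
      funext p
      refine Finset.sum_congr rfl fun j _ => ?_
      exact congrFun (adF_smul B h (x j) (dc.b j)) p
    rw [a1, hr]
    simp only [Finset.mul_sum, Finset.sum_mul]
    rw [Finset.sum_comm]
    refine Finset.sum_congr rfl fun j _ => Finset.sum_congr rfl fun p _ => ?_
    ring
  rw [h3, h3, Finset.mul_sum]
  refine Finset.sum_congr rfl fun j _ => ?_
  rw [← mul_assoc, ← mul_assoc, h2]

lemma sg_eq (dc : Dec B D l) (h : G) (x : (Fin D × Fin n → ℝ) × (Fin dc.M → ℝ)) :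
    dc.sg h x = (adF B h x.1, al dc h x.2) := rfl

lemma xi_eq (dc : Dec B D l) (x : (Fin D × Fin n → ℝ) × (Fin dc.M → ℝ)) :
    dc.xi x = fun p => cons D l x.1 p + os dc x.2 p := rfl

omit [NeZero l] in
lemma adF_cons (B : LieBasis G n) (h : G) (C : Fin D × Fin n → ℝ) :
    adF B h (cons D l C) = cons D l (adF B h C) := by
  funext p
  rw [adF_apply]
  unfold cons
  rw [adF_apply, Finset.mul_sum]
  refine Finset.sum_congr rfl fun c _ => ?_
  ring

lemma xi_sg (dc : Dec B D l) (h : G) (x : (Fin D × Fin n → ℝ) × (Fin dc.M → ℝ)) :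
    dc.xi (dc.sg h x) = adF B h (dc.xi x) := by
  rw [sg_eq, xi_eq, xi_eq, adF_add B h (cons D l x.1) (os dc x.2), adF_os, adF_cons]

lemma mt_eG (h0 : S_EXPG) (hG : IsClosed (G : Set (UU N))) (B : LieBasis G n) (v : Fin n → ℝ) :
    mt (eG B v) = NormedSpace.exp (lin B v) := by
  have h1 := h0 N n G hG B v
  unfold eG
  rw [dif_pos h1]
  exact h1.choose_spec

lemma eG_Ad (h0 : S_EXPG) (hG : IsClosed (G : Set (UU N))) (B : LieBasis G n) (h : G)
    (v : Fin n → ℝ) : eG B (Ad B h v) = h * eG B v * h⁻¹ := by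
  apply mt_inj
  rw [mt_mul, mt_mul, mt_inv, mt_eG h0 hG, mt_eG h0 hG, lin_Ad]
  have hu : IsUnit (mt h) := ⟨⟨mt h, (mt h)ᴴ, mt_unit h, mt_unit' h⟩, rfl⟩
  have hinv : (mt h)⁻¹ = (mt h)ᴴ := Matrix.inv_eq_right_inv (mt_unit h)
  have h1 := Matrix.exp_conj (mt h) (lin B v) hu
  rwa [hinv] at h1

lemma fro2_conj (h : G) (M : Mt N) : fro2 (mt h * M * (mt h)ᴴ) = fro2 M := by
  unfold fro2
  have h1 : (mt h * M * (mt h)ᴴ)ᴴ * (mt h * M * (mt h)ᴴ)
      = mt h * (Mᴴ * M) * (mt h)ᴴ := by
    rw [conjTranspose_mul, conjTranspose_mul, conjTranspose_conjTranspose]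
    calc mt h * (Mᴴ * (mt h)ᴴ) * (mt h * M * (mt h)ᴴ)
        = mt h * Mᴴ * ((mt h)ᴴ * mt h) * M * (mt h)ᴴ := by noncomm_ring
      _ = _ := by
        rw [mt_unit', mul_one]
        noncomm_ring
  rw [h1, trace_mul_comm, ← Matrix.mul_assoc, mt_unit', one_mul]

omit [NeZero l] in
lemma vred_adF (B : LieBasis G n) (h : G) (C : Fin D × Fin n → ℝ) :
    vred B D (adF B h C) = vred B D C := by
  have h1 : ∀ i : Fin D, lin B (fun a => adF B h C (i, a))
      = mt h * lin B (fun a => C (i, a)) * (mt h)ᴴ := fun i =>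
    lin_Ad B h (fun a => C (i, a))
  have e1 : ∀ P Q : Mt N, mt h * P * (mt h)ᴴ * (mt h * Q * (mt h)ᴴ)
      = mt h * (P * Q) * (mt h)ᴴ := by
    intro P Q
    calc mt h * P * (mt h)ᴴ * (mt h * Q * (mt h)ᴴ)
        = mt h * P * ((mt h)ᴴ * mt h) * Q * (mt h)ᴴ := by noncomm_ring
      _ = _ := by
        rw [mt_unit', mul_one]
        noncomm_ring
  have e2 : ∀ P Q : Mt N, fro2 (mt h * P * (mt h)ᴴ * (mt h * Q * (mt h)ᴴ)
      - mt h * Q * (mt h)ᴴ * (mt h * P * (mt h)ᴴ)) = fro2 (P * Q - Q * P) := by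
    intro P Q
    rw [e1, e1, ← sub_mul, ← mul_sub, fro2_conj]
  unfold vred
  refine congrArg (fun t => 1 / 2 * t) ?_
  refine Finset.sum_congr rfl fun i _ => Finset.sum_congr rfl fun j _ => ?_
  rw [h1, h1, e2]

lemma os_smooth (dc : Dec B D l) (p : Link D l × Fin n) :
    ContDiff ℝ ∞ (fun x : (Fin D × Fin n → ℝ) × (Fin dc.M → ℝ) => dc.xi x p) := by
  unfold Dec.xi cons
  fun_prop

/-- SYMM -/
theorem t_SYMM (h0 : S_EXPG) : S_SYMM := by
  intro N n D l _ G hG B dc h x
  refine ⟨?_, adF_n2 B h x.1, ?_, ?_, xi_sg dc h x, vred_adF B h x.1, ?_, ?_, ?_⟩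
  · unfold Dec.ch
    rw [xi_sg]
    funext e
    exact eG_Ad h0 hG B h (fun a => dc.xi x (e, a))
  · have h1 := os_os dc (al dc h x.2) (al dc h x.2)
    rw [← adF_os, adF_ip, os_os] at h1
    rw [sg_eq]
    unfold n2
    simpa only [pow_two] using h1.symm
  · have h1 := os_os dc (al dc h x.2) (al dc h fun j => dc.om j * x.2 j)
    rw [← adF_os, ← adF_os, adF_ip, os_os] at h1
    have h2 : ∀ i, dc.om i * (dc.sg h x).2 i ^ 2
        = al dc h x.2 i * al dc h (fun j => dc.om j * x.2 j) i := by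
      intro i
      rw [al_om, sg_eq]
      ring
    simp_rw [h2]
    rw [← h1]
    refine Finset.sum_congr rfl fun i _ => ?_
    ring
  · intro h'
    have h1 : al dc h (al dc h' x.2) = al dc (h * h') x.2 := by
      funext i
      have e1 : ∀ (g : G) (z : Fin dc.M → ℝ),
        al dc g z i = ∑ p, dc.b i p * adF B g (os dc z) p := fun _ _ => rfl
      rw [e1 h (al dc h' x.2), e1 (h * h') x.2, ← adF_mul, adF_os dc h' x.2]
    rw [sg_eq dc h' x, sg_eq, sg_eq, adF_mul, h1]
  · rw [sg_eq, adF_one]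
    have h1 : al dc 1 x.2 = x.2 := by
      funext i
      unfold al
      rw [adF_one, os_ip]
    rw [h1]
  · rw [contDiff_pi]
    intro e
    have h1 : (fun x : (Fin D × Fin n → ℝ) × (Fin dc.M → ℝ) => mt (dc.ch x e))
        = fun x => NormedSpace.exp (lin B fun a => dc.xi x (e, a)) := by
      funext x
      exact mt_eG h0 hG B (fun a => dc.xi x (e, a))
    rw [h1]
    have h2 : ContDiff ℝ ∞ (NormedSpace.exp : Mt N → Mt N) :=
      contDiff_iff_contDiffAt.2 fun y => (NormedSpace.exp_analytic (𝕂 := ℝ) y).contDiffAt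
    refine h2.comp ?_
    unfold lin
    refine ContDiff.sum fun a _ => ?_
    exact (os_smooth dc (e, a)).smul contDiff_const

end

end Pool.Agent.Q129.LU
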